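import Mathlib
import Pool.Agent.TH910.LS.Stmt

/-!
# Lang and Silverman's lower bound for the forms of a power of an elliptic curve

`E : y² = x³ + a x + b` is an elliptic curve over the number field `K`, with `a`, `b` integral.  A
finite Galois extension `L` of `K` and a representation `ρ` of its group by integral matrices of
size `g` define an abelian variety `A` over `K`, the form of `E ^ g` with
`A(K) = {P ∈ E(L) ^ g | ρ(σ) σ(P) = P for all σ}` (`FixedPt ρ P`).  A symmetric positive definite
integral matrix `M` with `ρ(σ)ᵀ M ρ(σ) = M` (`Polar ρ M`) is a polarization of `A` over `K`; the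
corresponding canonical height relative to `K` is `formHeight M P = chatM M P / [L : K]`, where
`chatM M` is the canonical height on `E(L) ^ g` relative to `L`.

`Pts L a b` is the group of points over `L`, `sht P` the height of the `x`-coordinate,
`chat P` the canonical height, `gal σ P` the point with coordinates `σ(x)`, `σ(y)`, and
`RamPrimes K T` says that for each prime `v` in `T` there is `σ ≠ 1` in the inertia group:
`σ(z) - z ∈ v` for all integers `z`.  `logNorms T` is the sum of `log N v`, `v ∈ T`.
`DenseOrbit ρ P` says that no non-zero homomorphism from `E ^ g` to `E` given by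
integers kills, modulo torsion, all `φ(P)`, `φ` an integral matrix commuting with `ρ`, that is an
endomorphism of `A` over `K`.  `Generates P` says that `σ(P) ≠ P` for `σ ≠ 1`.
-/

set_option autoImplicit false

open Pool.Agent.TH910.LS NumberField IsDedekindDomain

theorem Pool.Agent.Results.MP_9a3c31_nt.FormsOfPowers.result
    (K : Type) [Field K] [NumberField K] (a b : 𝓞 K)
    (hab : 4 * (a : K) ^ 3 + 27 * (b : K) ^ 2 ≠ 0) (g : ℕ) (hg : 0 < g) :
    ∃ c : ℝ, 0 < c ∧ ∀ (L : Type) [Field L] [NumberField L] [Algebra K L] [IsGalois K L]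
      [DecidableEq L], ChatLim L a b ∧
      ∀ (ρ : (L ≃ₐ[K] L) →* Matrix (Fin g) (Fin g) ℤ) (M : Matrix (Fin g) (Fin g) ℤ)
        (P : Fin g → Pts L a b) (T : Finset (HeightOneSpectrum (𝓞 L))),
        Polar ρ M → FixedPt ρ P → RamPrimes K T →
        (Generates P ∧ ¬ IsOfFinAddOrder P) ∨ (Faithful ρ ∧ DenseOrbit ρ P) →
        c * (1 + logNorms T) ≤ formHeight M P := by
  obtain ⟨c, hc, h⟩ := forms_final a b hab g
  refine ⟨c, hc, fun L _ _ _ _ _ => ⟨chatLim a b hab L, fun ρ M P T hM hP hT hor => ?_⟩⟩
  rcases hor with ⟨h1, h2⟩ | ⟨h1, h2⟩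
  · exact h L ρ M hM.1 hM.2 P hP h1 h2 T hT
  · exact h L ρ M hM.1 hM.2 P hP (h2.stab h1 hP) (h2.nontors hg) T hT
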