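import Mathlib
import Pool.Agent.TH910.LS.Main

/-!
# Lang and Silverman's lower bound for powers of elliptic curves, all polarizations

`SPt a b` is the group of `K`-rational points of `E : y² = x³ + a x + b`, `sht P` the height of the
`x`-coordinate (relative to `K`), `chat P` the canonical height, the limit of
`sht (2 ^ k P) / 4 ^ k`.  A symmetric positive definite integral matrix `M` of size `g` is a
polarization of `E ^ g`, and `chatM M P` is the corresponding canonical height.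
`jinv a b` is the `j`-invariant, and `Ram a b S` says that `S` is a set of primes at which the
valuation of `4 a³ + 27 b²` is not divisible by twelve.
-/

set_option autoImplicit false

open Pool.Agent.TH942 Pool.Agent.TH910.LS NumberField IsDedekindDomain Height Filter Topology

theorem Pool.Agent.Results.MP_9a3c31_nt.PowersAllPolarizations.result :
    -- an abelian group with a quadratic form
    (∀ (A : Type) [AddCommGroup A] (q : A → ℝ), (∀ P, 0 ≤ q P) →
      (∀ P Q, q (P + Q) + q (P - Q) = 2 * (q P + q Q)) → ∀ μ : ℝ, 0 < μ →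
      (∀ Q, ¬ IsOfFinAddOrder Q → μ ≤ q Q) →
      ∀ (g : ℕ) (M : Matrix (Fin g) (Fin g) ℤ), (M.map (Int.cast : ℤ → ℝ)).PosDef →
        ∀ P : Fin g → A, ¬ IsOfFinAddOrder P →
          μ ≤ ∑ i, ∑ j, (M i j : ℝ) * ((q (P i + P j) - q (P i) - q (P j)) / 2)) ∧
    -- powers of an elliptic curve
    (∀ (K : Type) [Field K] [NumberField K] [DecidableEq K] (a b : K),
      4 * a ^ 3 + 27 * b ^ 2 ≠ 0 →
      (∀ P : SPt a b,
        Tendsto (fun k : ℕ => sht ((2 ^ k : ℕ) • P) / 4 ^ k) atTop (𝓝 (chat P))) ∧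
      ∀ (g : ℕ) (M : Matrix (Fin g) (Fin g) ℤ), (M.map (Int.cast : ℤ → ℝ)).PosDef →
        ∀ P : Fin g → SPt a b,
          (¬ IsOfFinAddOrder P → ∃ Q ∈ AddSubgroup.closure (Set.range P),
            ¬ IsOfFinAddOrder Q ∧ chat Q ≤ chatM M P) ∧
          (0 < g → (∀ c : Fin g → ℤ, c ≠ 0 → ¬ IsOfFinAddOrder (∑ i, c i • P i)) →
            ∃ Q ∈ AddSubgroup.closure (Set.range P),
              ¬ IsOfFinAddOrder Q ∧ chat Q ^ g * (M.det : ℝ) ≤ chatM M P ^ g)) ∧
    -- products of powers of elliptic curves with `j`-invariants of bounded height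
    (∀ (K : Type) [Field K] [NumberField K] [DecidableEq K] (H : ℝ), ∃ c : ℝ, 0 < c ∧
      ∀ (r : ℕ) (a b : Fin r → K), (∀ i, 4 * a i ^ 3 + 27 * b i ^ 2 ≠ 0) →
        (∀ i, logHeight₁ (jinv (a i) (b i)) ≤ H) →
        ∀ S : Fin r → Finset (HeightOneSpectrum (𝓞 K)), (∀ i, Ram (a i) (b i) (S i)) →
        ∀ (g : Fin r → ℕ) (M : ∀ i, Matrix (Fin (g i)) (Fin (g i)) ℤ),
          (∀ i, ((M i).map (Int.cast : ℤ → ℝ)).PosDef) →
          ∀ P : ∀ i, Fin (g i) → SPt (a i) (b i), (∀ i, ¬ IsOfFinAddOrder (P i)) →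
            c * ∑ i, (1 + ∑ v ∈ S i, Real.log (Ideal.absNorm v.asIdeal)) ≤
              ∑ i, chatM (M i) (P i)) := by
  refine ⟨?_, ?_, ?_⟩
  · intro A _ q hq0 hq μ hμ h g M hM P hP
    exact group_bound q hq0 hq P M hM (exists_nontors hP) hμ (fun Q _ hQ => h Q hQ)
  · intro K _ _ _ a b hab
    refine ⟨(chat_spec hab).1, fun g M hM P => ⟨fun hP => reduction hab M hM P hP,
      fun hg hP => ?_⟩⟩
    have : Nonempty (Fin g) := ⟨⟨0, hg⟩⟩
    have h := reduction_indep hab M hM P hP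
    rw [Fintype.card_fin] at h
    exact h
  · intro K _ _ _ H
    obtain ⟨c, hc, n, h⟩ := good_height (K := K) H
    refine ⟨c, hc, fun r a b hab hj S hS g M hM P hP => ?_⟩
    rw [Finset.mul_sum]
    apply Finset.sum_le_sum
    intro i _
    obtain ⟨Q, -, hQ, hQ2⟩ := reduction (hab i) (M i) (hM i) (P i) (hP i)
    exact ((h (a i) (b i) (hab i) (hj i)).2 (S i) (hS i) Q hQ).trans hQ2
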