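import Pool.Agent.TH951.LS.Reg

/-!
# Regulators of elliptic curves with nearly `S`-integral `j`

For every `D` there is a constant `c > 0` such that for every finite set `S` of primes the following
holds for all elliptic curves `E` over number fields `K` of degree at most `D` whose `j`-invariant
is (nearly) `S`-integral and has height larger than a bound depending on `S`. Let `P_1, …, P_g` be
independent points of `E(K)`, and let `B` be the sum of `h(j)` and of the normalised logarithm of
the norms of all primes of bad reduction. The determinant of the matrix of the height pairings of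
the `P_i` is at least `(c B / g) ^ g`, and the canonical height of `P = (P_1, …, P_g) ∈ E ^ g` with
respect to any polarization, given by a positive definite integral matrix `L`, is at least
`c B (det L) ^ (1 / g)`.
-/

set_option autoImplicit false

namespace Pool.Agent.Results.MP_9a3c31_nt.RegulatorsNearlyIntegralJ

open NumberField Filter Topology

/-- the absolute logarithmic Weil height -/
noncomputable def absH {K : Type} [Field K] [NumberField K] (x : K) : ℝ :=
  Height.logHeight₁ x / Module.finrank ℚ K

/-- the curve `y² = x³ + a x + b` -/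
def curve {K : Type} [Field K] (a b : K) : WeierstrassCurve K := ⟨0, 0, 0, a, b⟩

/-- its `j`-invariant -/
noncomputable def jinv {K : Type} [Field K] (a b : K) : K :=
  6912 * a ^ 3 / (4 * a ^ 3 + 27 * b ^ 2)

/-- `h` is the canonical height of the point `P`, normalised by
`h = lim 4 ^ (-n) h(x(2 ^ n P))`, with the absolute logarithmic height on the right; here
`xRep` is `(x : 1)`, and `(1 : 0)` for the point at infinity. -/
def IsCanonicalHeight {K : Type} [Field K] [NumberField K] [DecidableEq K]
    {W : WeierstrassCurve K} (P : W.toAffine.Point) (h : ℝ) : Prop :=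
  Tendsto (fun n : ℕ => Height.logHeight ((2 ^ n • P).xRep) / (4 ^ n * Module.finrank ℚ K)) atTop
    (𝓝 h)

/-- the bilinear form `⟨·, ·⟩` with `⟨x, x⟩ = q x` -/
noncomputable def pairing {A : Type} [AddCommGroup A] (q : A → ℝ) (x y : A) : ℝ :=
  (q (x + y) - q x - q y) / 2

/-- the value at `P ∈ A ^ g` of the form `∑ L i j ⟨P i, P j⟩` -/
noncomputable def polHeight {A : Type} [AddCommGroup A] (q : A → ℝ) {g : ℕ}
    (L : Matrix (Fin g) (Fin g) ℤ) (P : Fin g → A) : ℝ :=
  ∑ i, ∑ j, (L i j : ℝ) * pairing q (P i) (P j)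

/-- `j` is integral outside `M` up to the proportion `δ`: for some positive integer `b` with
`log b ≤ δ h(j)` and some `k`, the number `b M ^ k j` is an algebraic integer. If `b = 1` then `j`
is integral outside the primes dividing `M`. -/
def NearlyIntegral {K : Type} [Field K] [NumberField K] (δ : ℝ) (M : ℕ) (j : K) : Prop :=
  ∃ b k : ℕ, 0 < b ∧ Real.log b ≤ δ * absH j ∧ IsIntegral ℤ ((b : K) * (M : K) ^ k * j)

/-- the curve has good reduction at the finite place `v` of `K`: a change of variables over `K`
gives an equation with `v`-integral coefficients whose discriminant is a unit at `v` -/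
def GoodReduction {K : Type} [Field K] [NumberField K] (v : FinitePlace K)
    (W : WeierstrassCurve K) : Prop :=
  ∃ C : WeierstrassCurve.VariableChange K, v (C • W).a₁ ≤ 1 ∧ v (C • W).a₂ ≤ 1 ∧
    v (C • W).a₃ ≤ 1 ∧ v (C • W).a₄ ≤ 1 ∧ v (C • W).a₆ ≤ 1 ∧ v (C • W).Δ = 1

/-- the logarithm of the norm of the product of the primes in `F`, divided by `[K : ℚ]` -/
noncomputable def logNorm {K : Type} [Field K] [NumberField K] (F : Finset (FinitePlace K)) : ℝ :=
  (∑ v ∈ F, Real.log (Ideal.absNorm v.maximalIdeal.asIdeal)) / Module.finrank ℚ K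

/-- For every `D` there are `c > 0` and `δ > 0` such that for every integer `M ≠ 0` there is `A`
such that the following holds for every number field `K` of degree at most `D` and every elliptic
curve `E : y² = x³ + a x + b` over `K` whose `j`-invariant is integral outside `M` up to the
proportion `δ` and has height larger than `A`. Let `F` be any finite set of finite places of `K`
where `E` has bad reduction. The canonical height `q` exists, and if no non-trivial integral
combination of `P_1, …, P_g ∈ E(K)` is a torsion point, then the determinant of the height pairings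
`⟨P_i, P_j⟩` is at least `(c / g (h(j) + logNorm F)) ^ g`, and for all positive definite integral
matrices `L` the height of `(P_1, …, P_g)` with respect to `L` is at least
`c (h(j) + logNorm F) (det L) ^ (1 / g)`. -/
theorem result (D : ℕ) : ∃ c δ : ℝ, 0 < c ∧ 0 < δ ∧ ∀ M : ℕ, M ≠ 0 → ∃ A : ℝ,
    ∀ (K : Type) [Field K] [NumberField K] [DecidableEq K], Module.finrank ℚ K ≤ D →
    ∀ a b : K, 4 * a ^ 3 + 27 * b ^ 2 ≠ 0 → NearlyIntegral δ M (jinv a b) →
    A < absH (jinv a b) →
    ∀ F : Finset (FinitePlace K), (∀ v ∈ F, ¬ GoodReduction v (curve a b)) →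
    ∃ q : (curve a b).toAffine.Point → ℝ, (∀ P, IsCanonicalHeight P (q P)) ∧
    ∀ (g : ℕ) (P : Fin g → (curve a b).toAffine.Point),
      (∀ n : Fin g → ℤ, n ≠ 0 → ¬ IsOfFinAddOrder (∑ i, n i • P i)) →
      (c / g * (absH (jinv a b) + logNorm F)) ^ g ≤
        (Matrix.of fun i j => pairing q (P i) (P j)).det ∧
      ∀ L : Matrix (Fin g) (Fin g) ℤ, (L.map (Int.cast : ℤ → ℝ)).PosDef →
        (c * (absH (jinv a b) + logNorm F)) ^ g * (L.det : ℝ) ≤ polHeight q L P ^ g := by
  obtain ⟨N, c, δ, hc, hδ, hfam⟩ := TH951.LS.family.{0} D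
  refine ⟨c / 4 ^ N, δ, by positivity, hδ, fun M hM => ?_⟩
  obtain ⟨A, hA, hfam⟩ := hfam M hM
  refine ⟨A, ?_⟩
  intro K _ _ _ hK a b hab hj hAj F hF
  have hd : (0 : ℝ) < Module.finrank ℚ K := by
    exact_mod_cast (Module.finrank_pos : 0 < Module.finrank ℚ K)
  have hlim : ∀ Q : (curve a b).toAffine.Point, Tendsto (fun n : ℕ =>
      Height.logHeight ((2 ^ n • Q).xRep) / (4 ^ n * Module.finrank ℚ K)) atTop
      (𝓝 (Pool.Agent.TH910.LS.chat (a := a) (b := b) Q / Module.finrank ℚ K)) := by
    intro Q
    have h := ((Pool.Agent.TH910.LS.chat_spec hab).1 Q).div_const (Module.finrank ℚ K : ℝ)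
    refine h.congr fun n => ?_
    rw [div_div]
    rfl
  have hH : 0 < absH (jinv a b) := lt_of_le_of_lt hA hAj
  have hR0 : 0 ≤ logNorm F := by
    refine div_nonneg (Finset.sum_nonneg fun v _ => ?_) hd.le
    exact Real.log_natCast_nonneg _
  -- the canonical height
  obtain ⟨-, hq0, hqp, -⟩ := Pool.Agent.TH910.LS.chat_spec hab
  let q : (curve a b).toAffine.Point → ℝ := fun Q =>
    Pool.Agent.TH910.LS.chat (a := a) (b := b) Q / Module.finrank ℚ K
  have hq0' : ∀ Q, 0 ≤ q Q := fun Q => div_nonneg (hq0 Q) hd.le
  have hqp' : ∀ Q R, q (Q + R) + q (Q - R) = 2 * (q Q + q R) := by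
    intro Q R
    have h := hqp Q R
    have h2 : q (Q + R) + q (Q - R) =
        (Pool.Agent.TH910.LS.chat (a := a) (b := b) (Q + R) +
          Pool.Agent.TH910.LS.chat (a := a) (b := b) (Q - R)) / Module.finrank ℚ K :=
      (add_div _ _ _).symm
    have h3 : (Pool.Agent.TH910.LS.chat (a := a) (b := b) (Q + R) +
          Pool.Agent.TH910.LS.chat (a := a) (b := b) (Q - R)) =
        2 * (Pool.Agent.TH910.LS.chat (a := a) (b := b) Q +
          Pool.Agent.TH910.LS.chat (a := a) (b := b) R) := h
    rw [h2, h3]
    change _ = 2 * (Pool.Agent.TH910.LS.chat (a := a) (b := b) Q / Module.finrank ℚ K +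
      Pool.Agent.TH910.LS.chat (a := a) (b := b) R / Module.finrank ℚ K)
    rw [← add_div, mul_div_assoc]
  have key : ∀ Q : (curve a b).toAffine.Point, ¬ IsOfFinAddOrder Q →
      c / 4 ^ N * (absH (jinv a b) + logNorm F) ≤ q Q := by
    intro Q hQ
    have hell : (curve a b).IsElliptic := Pool.Agent.TH942.sw_ell hab
    have hjj : (curve a b).j = jinv a b := Pool.Agent.TH910.LS.jinv_eq a b hell
    obtain ⟨b', k, hb, hbδ, hint⟩ := hj
    have hC : 0 < c * (absH (jinv a b) + logNorm F) := by positivity
    rw [← hjj] at hint hbδ hAj hC ⊢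
    have h := TH951.LS.of_family (curve a b) hlim hC (fun Q hQ =>
      hfam K hK (curve a b) b' k hb hint hbδ hAj F (fun v hv => hF v hv) _ hlim Q hQ) Q
    rw [mul_div_right_comm] at h
    refine h.resolve_left ?_
    rintro ⟨n, hn, -, h⟩
    exact hQ (isOfFinAddOrder_iff_nsmul_eq_zero.2 ⟨n, hn, h⟩)
  refine ⟨q, hlim, ?_⟩
  intro g P hP
  have hB : 0 < absH (jinv a b) + logNorm F := by positivity
  have hμ : 0 < c / 4 ^ N * (absH (jinv a b) + logNorm F) := by positivity
  rcases Nat.eq_zero_or_pos g with rfl | hg
  · simp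
  have : Nonempty (Fin g) := ⟨⟨0, hg⟩⟩
  have hgR : (0 : ℝ) < g := by exact_mod_cast hg
  constructor
  · have h := TH951.LS.gram_det q hq0' hqp' P hμ (fun n hn => key _ (hP n hn))
    rw [Fintype.card_fin] at h
    have h2 : (c / 4 ^ N / g * (absH (jinv a b) + logNorm F)) ^ g =
        (c / 4 ^ N * (absH (jinv a b) + logNorm F)) ^ g / (g : ℝ) ^ g := by
      rw [← div_pow]
      congr 1
      ring
    rw [h2, div_le_iff₀ (by positivity)]
    exact h.trans (le_of_eq (mul_comm _ _))
  · intro L hL
    have h := Pool.Agent.TH910.LS.indep_bound q hq0' hqp' P L hL hμ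
      (fun n hn => key _ (hP n hn))
    rw [Fintype.card_fin] at h
    exact h

end Pool.Agent.Results.MP_9a3c31_nt.RegulatorsNearlyIntegralJ
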